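import Pool.Agent.H64.Lerf4
import Pool.Agent.H27.AmenSolv

set_option autoImplicit false

namespace Pool.Agent.Results.MP_7bd500_al.NotStable

open Pool.Agent.H27.Amen Pool.Agent.H64.LerfDefs

/-- There is a finitely generated, solvable, amenable, LERF group none of whose presentations
`F_S → G` is permutation stable. -/
theorem result : ∃ (G : Type) (_ : Group G), Group.FG G ∧ Group.IsSolvable G ∧ Amenable G ∧
    IsLERF G ∧ ∀ (S : Type) (π : FreeGroup S →* G), Function.Surjective π → ¬ PermStable π :=
  haveI := Pool.Agent.H64.Lerf.solv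
  ⟨Pool.Agent.H64.Lerf.G, inferInstance, Pool.Agent.H64.Lerf.fg, this, amenable_of_solvable,
    Pool.Agent.H64.Lerf.lerf, fun _ π h => Pool.Agent.H64.Lerf.not_stable π h⟩

end Pool.Agent.Results.MP_7bd500_al.NotStable
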